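import Pool.Agent.Strip051.LB.A0m0m_pm.Defs

/-! # LINE boxes A0m0m_pm: part 2 -/

namespace Pool.Agent.Strip051.LB.A0m0m_pm

open Pool.Agent.Strip051.Box Pool.Agent.Strip051.Box2

set_option maxRecDepth 100000

theorem c18 : chk f 60 (L2 (R2 (R1 (R1 (L2 (R1 (R2 (L2 (R1 (L2 (R1 b0))))))))))) = true := by decide +kernel

theorem c19 : chk f 60 (R2 (R2 (R1 (R1 (L2 (R1 (R2 (L2 (R1 (L2 (R1 b0))))))))))) = true := by decide +kernel

theorem c20 : chk f 60 (L1 (L1 (R2 (R1 (R2 (L2 (R1 (L2 (R1 b0))))))))) = true := by decide +kernel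

theorem c21 : chk f 60 (L2 (R1 (L1 (R2 (R1 (R2 (L2 (R1 (L2 (R1 b0)))))))))) = true := by decide +kernel

theorem c22 : chk f 60 (L2 (L1 (R2 (R1 (L1 (R2 (R1 (R2 (L2 (R1 (L2 (R1 b0)))))))))))) = true := by decide +kernel

theorem c23 : chk f 60 (L1 (L2 (R2 (L1 (R2 (R1 (L1 (R2 (R1 (R2 (L2 (R1 (L2 (R1 b0)))))))))))))) = true := by decide +kernel

end Pool.Agent.Strip051.LB.A0m0m_pm
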